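import Pool.Agent.W188.QS.Stm2
import Pool.Agent.W188.Ray.A4

/-!
Project QS (owner helper188), part LINE: facts on the critical line and right of it.
-/

set_option autoImplicit false

open Complex MeasureTheory Set Filter Topology

namespace Pool.Agent.W338.QS

open Pool.Agent.W188.QS

theorem ld {s : ℂ} (h0 : 0 < s.re) (h1 : 1 ≤ s.im) : logDeriv XX s = H345.Chi.L2 s := by
  have h2 : HasDerivAt XX (XX s * H345.Chi.L2 s) s := H345.Chi.hasDerivAt_XX h0 h1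
  have h3 : XX s ≠ 0 := H345.Chi.XX_ne h0 h1
  rw [logDeriv_apply, h2.deriv, mul_div_cancel_left₀ _ h3]

theorem cp_re (t : ℝ) : (cp t).re = 1 / 2 := by simp [cp]

theorem cp_im (t : ℝ) : (cp t).im = t := by simp [cp]

theorem norm_XX (t : ℝ) : ‖XX (cp t)‖ = 1 := H345.norm_XX_half t

theorem hasDerivAt_cp (t : ℝ) : HasDerivAt (fun x : ℝ => cp x) I t := by
  unfold cp
  simpa using ((ofRealCLM.hasDerivAt (x := t)).mul_const I).const_add (1 / 2 : ℂ)

theorem L2_real {t : ℝ} (ht : 1 ≤ t) : (H345.Chi.L2 (cp t)).im = 0 := by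
  have h1 : HasDerivAt XX (XX (cp t) * H345.Chi.L2 (cp t)) (cp t) :=
    H345.Chi.hasDerivAt_XX (by rw [cp_re]; norm_num) (by rw [cp_im]; exact ht)
  have h2 : HasDerivAt (fun x : ℝ => XX (cp x)) (XX (cp t) * H345.Chi.L2 (cp t) * I) t :=
    h1.comp t (hasDerivAt_cp t)
  have h3 := h2.norm_sq
  have h4 : (fun x : ℝ => ‖XX (cp x)‖ ^ 2) = fun _ => 1 := by
    funext x
    rw [norm_XX, one_pow]
  rw [h4] at h3
  have h5 := h3.unique (hasDerivAt_const t (1 : ℝ))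
  rw [Complex.inner] at h5
  have h6 : XX (cp t) * H345.Chi.L2 (cp t) * I * (starRingEnd ℂ) (XX (cp t)) =
      H345.Chi.L2 (cp t) * I := by
    have h7 : XX (cp t) * (starRingEnd ℂ) (XX (cp t)) = 1 := by
      rw [mul_conj, normSq_eq_norm_sq, norm_XX]
      simp
    linear_combination (H345.Chi.L2 (cp t) * I) * h7
  rw [h6, mul_I_re] at h5
  linarith

theorem ld_line {t : ℝ} (ht : 1 ≤ t) : logDeriv XX (cp t) = (lam t : ℂ) := by
  have h1 := ld (s := cp t) (by rw [cp_re]; norm_num) (by rw [cp_im]; exact ht)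
  unfold lam
  apply Complex.ext
  · rw [ofReal_re]
  · rw [ofReal_im, h1, L2_real ht]

theorem lam_ge {t : ℝ} (ht : 50 ≤ t) : 1 ≤ lam t := by
  unfold lam
  rw [ld (s := cp t) (by rw [cp_re]; norm_num) (by rw [cp_im]; linarith)]
  exact (Pool.Agent.W188.Ray.L2_re_ge (s := cp t) (by rw [cp_re]; norm_num)
    (by rw [cp_re]; norm_num) (by rw [cp_im]; exact ht)).1

theorem close {s : ℂ} (h0 : 0 < s.re) (h2 : s.re ≤ 4) (h1 : 12 ≤ s.im) :
    ‖logDeriv XX s - (Real.log (s.im / (2 * Real.pi)) : ℂ)‖ ≤ 14 / s.im := by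
  rw [ld h0 (by linarith)]
  exact H345.Chi.L2_close h0 h2 h1

theorem FF_line {t : ℝ} (ht : 1 ≤ t) (k : ℕ) : FF k (cp t) = ((Zk k t : ℝ) : ℂ) := by
  have h1 : (starRingEnd ℂ) (riemannZeta (cp t)) = XX (cp t) * riemannZeta (cp t) :=
    Pool.Agent.W188.Ray.fe_line ht
  unfold FF Zk
  have h2 : riemannZeta (cp t) ^ (2 * k) * XX (cp t) ^ k =
      (riemannZeta (cp t) * (XX (cp t) * riemannZeta (cp t))) ^ k := by
    rw [mul_pow, mul_pow, pow_mul, pow_two, mul_pow]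
    ring
  rw [h2, ← h1, mul_conj, normSq_eq_norm_sq, pow_mul]
  push_cast
  rfl

theorem GG_line (T Δ t : ℝ) : GG T Δ (cp t) = ((gg T Δ t : ℝ) : ℂ) := by
  unfold GG gg
  rw [ofReal_exp]
  congr 1
  have h1 : cp t - cp T = ((t - T : ℝ) : ℂ) * I := by
    unfold cp
    push_cast
    ring
  rw [h1, div_pow, mul_pow, I_sq]
  push_cast
  rw [div_pow]
  ring

theorem one_lt {s : ℂ} (h0 : 1 / 2 < s.re) (h1 : s.re ≤ 4) (ht : 50 ≤ s.im) : 1 < ‖XX s‖ := by
  obtain ⟨t, htd⟩ : ∃ t, t = s.im := ⟨_, rfl⟩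
  rw [← htd] at ht
  have hd : ∀ x : ℝ, 0 < x → HasDerivAt (fun x : ℝ => ‖XX ((x : ℂ) + (t : ℂ) * I)‖ ^ 2)
      (2 * inner ℝ (XX ((x : ℂ) + (t : ℂ) * I))
        (XX ((x : ℂ) + (t : ℂ) * I) * H345.Chi.L2 ((x : ℂ) + (t : ℂ) * I))) x := fun x hx =>
    (Pool.Agent.W188.Ray.hasDerivAt_hor t x hx (by linarith)).norm_sq
  have hmono : StrictMonoOn (fun x : ℝ => ‖XX ((x : ℂ) + (t : ℂ) * I)‖ ^ 2)
      (Icc (1 / 2) 4) := by
    apply strictMonoOn_of_deriv_pos (convex_Icc _ _)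
    · intro x hx
      exact (hd x (by linarith [hx.1])).continuousAt.continuousWithinAt
    · intro x hx
      rw [interior_Icc] at hx
      rw [(hd x (by linarith [hx.1])).deriv]
      have h2 := (Pool.Agent.W188.Ray.L2_re_ge (s := (x : ℂ) + (t : ℂ) * I)
        (by simp; linarith [hx.1]) (by simp; exact hx.2.le) (by simpa using ht)).1
      have h3 : inner ℝ (XX ((x : ℂ) + (t : ℂ) * I))
        (XX ((x : ℂ) + (t : ℂ) * I) * H345.Chi.L2 ((x : ℂ) + (t : ℂ) * I)) =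
        ‖XX ((x : ℂ) + (t : ℂ) * I)‖ ^ 2 * (H345.Chi.L2 ((x : ℂ) + (t : ℂ) * I)).re := by
        rw [Complex.inner, mul_comm (XX _) (H345.Chi.L2 _), mul_assoc, mul_conj,
          normSq_eq_norm_sq, re_mul_ofReal, mul_comm]
      rw [h3]
      have h4 : XX ((x : ℂ) + (t : ℂ) * I) ≠ 0 :=
        H345.Chi.XX_ne (by simp; linarith [hx.1]) (by simp; linarith)
      have h5 : 0 < ‖XX ((x : ℂ) + (t : ℂ) * I)‖ ^ 2 := pow_pos (norm_pos_iff.2 h4) 2
      have h6 : 0 < (H345.Chi.L2 ((x : ℂ) + (t : ℂ) * I)).re := by linarith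
      exact mul_pos two_pos (mul_pos h5 h6)
  have h := hmono (left_mem_Icc.2 (by norm_num)) (⟨h0.le, h1⟩ : s.re ∈ Icc (1 / 2 : ℝ) 4) h0
  have e1 : ((s.re : ℂ)) + (t : ℂ) * I = s := by
    rw [htd]; exact re_add_im s
  have e2 : (((1 / 2 : ℝ) : ℂ)) + (t : ℂ) * I = cp t := by unfold cp; push_cast; ring
  beta_reduce at h
  rw [e1, e2, norm_XX] at h
  nlinarith [norm_nonneg (XX s)]

theorem hasDerivAt_ww (c : ℂ) (N : ℕ) {s : ℂ} (h0 : 0 < s.re) (h1 : 1 ≤ s.im) :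
    HasDerivAt (ww c N) (-((N : ℂ) * ww c N s * logDeriv XX s)) s := by
  have h2 : HasDerivAt XX (XX s * H345.Chi.L2 s) s := H345.Chi.hasDerivAt_XX h0 h1
  have h3 : XX s ≠ 0 := H345.Chi.XX_ne h0 h1
  have h4 := ((h2.inv h3).pow N).const_mul c
  have e : c * ((N : ℂ) * (XX s)⁻¹ ^ (N - 1) * (-(XX s * H345.Chi.L2 s) / XX s ^ 2)) =
      -((N : ℂ) * ww c N s * logDeriv XX s) := by
    rw [ld h0 h1]
    unfold ww
    rcases N with _ | n
    · simp
    · have e3 : -(XX s * H345.Chi.L2 s) / XX s ^ 2 = -(H345.Chi.L2 s * (XX s)⁻¹) := by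
        field_simp
      rw [e3, Nat.add_sub_cancel, pow_succ]
      ring
  rw [← e]
  exact h4

theorem ww_ne {c : ℂ} (hc : ‖c‖ = 1) (N : ℕ) (t : ℝ) : ww c N (cp t) ≠ 0 := by
  unfold ww
  have h1 : c ≠ 0 := by
    rintro rfl
    rw [norm_zero] at hc
    exact zero_ne_one hc
  have h2 : XX (cp t) ≠ 0 := by
    intro h
    have := norm_XX t
    rw [h, norm_zero] at this
    exact zero_ne_one this
  exact mul_ne_zero h1 (pow_ne_zero _ (inv_ne_zero h2))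

theorem fin_PP {c : ℂ} {N : ℕ} (hc : ‖c‖ = 1) (hN : 1 ≤ N) (x : ℝ) :
    (PP c N ∩ Iic x).Finite := by
  by_contra hinf
  obtain ⟨x0, hx0, hacc⟩ := Set.Infinite.exists_accPt_of_subset_isCompact (K := Icc 100 x)
    hinf isCompact_Icc (fun t ht => ⟨ht.1.1.le, ht.2⟩)
  have h50 : 50 ≤ x0 := by linarith [hx0.1]
  have h1 : HasDerivAt (fun t : ℝ => ww c N (cp t))
      (-((N : ℂ) * ww c N (cp x0) * logDeriv XX (cp x0)) * I) x0 :=
    (hasDerivAt_ww c N (s := cp x0) (by rw [cp_re]; norm_num) (by rw [cp_im]; linarith)).comp x0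
      (hasDerivAt_cp x0)
  have h2 : -((N : ℂ) * ww c N (cp x0) * logDeriv XX (cp x0)) * I ≠ 0 := by
    rw [ld_line (by linarith)]
    have h3 : (N : ℂ) ≠ 0 := by exact_mod_cast (by omega : N ≠ 0)
    have h4 : (lam x0 : ℂ) ≠ 0 := by
      have := lam_ge h50
      exact_mod_cast (by linarith : lam x0 ≠ 0)
    exact mul_ne_zero (neg_ne_zero.2 (mul_ne_zero (mul_ne_zero h3 (ww_ne hc N x0)) h4)) I_ne_zero
  have h3 := h1.eventually_ne (c := 1) h2
  have h4 : ∃ᶠ t in 𝓝[≠] x0, t ∈ PP c N ∩ Iic x := accPt_iff_frequently_nhdsNE.1 hacc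
  obtain ⟨t, ht1, ht2⟩ := (h4.and_eventually h3).exists
  exact ht2 ht1.1.2

theorem qs_line : Pool.Agent.W188.QS.StLine := by
  refine ⟨fun t ht => ⟨ld_line (by linarith), ?_, lam_ge ht⟩, norm_XX,
    fun t ht => Pool.Agent.W188.Ray.fe_line ht, fun t ht k => FF_line ht k, GG_line,
    fun s h1 h2 h3 => one_lt h1 h2 h3, fun c N s h0 h1 => hasDerivAt_ww c N h0 h1,
    fun s h0 h2 h1 => close h0 h2 h1, H345.Chi.XX_size, fun c N hc hN x => fin_PP hc hN x⟩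
  have h1 := close (s := cp t) (by rw [cp_re]; norm_num) (by rw [cp_re]; norm_num)
    (by rw [cp_im]; linarith)
  rw [ld_line (by linarith), cp_im, ← ofReal_sub, norm_real, Real.norm_eq_abs] at h1
  exact h1

end Pool.Agent.W338.QS
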